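import Pool.Agent.Q22.DigitHankel

/-!
# The roots of the binary Hankel determinant polynomials are bounded

Every complex root of `H(n, t)`, `n ≥ 2`, has modulus less than `4`.
-/

namespace Pool.Agent.Results.MP_9fc12a_nt.RootsBelowFour

open Matrix Pool.Agent.Q22.DigitHankel Polynomial

/-- The polynomial `S(m, t) = ∑ ε_j t ^ j` for `m = ∑ ε_j 2 ^ j`, `ε_j ∈ {0, 1}`. -/
noncomputable def S (m : ℕ) : ℤ[X] := Nat.ofDigits (X : ℤ[X]) (Nat.digits 2 m)

/-- The `n × n` Hankel matrix with entries `S(i + j, t)`, `0 ≤ i, j < n`. -/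
noncomputable def hankel (n : ℕ) : Matrix (Fin n) (Fin n) ℤ[X] :=
  Matrix.of fun i j => S ((i : ℕ) + (j : ℕ))

/-- The determinant `H(n, t)`. -/
noncomputable def H (n : ℕ) : ℤ[X] := (hankel n).det

lemma S_zero : S 0 = 0 := by
  unfold S
  rw [Nat.digits_zero]
  rfl

lemma S_even (k : ℕ) : S (2 * k) = X * S k := by
  rcases Nat.eq_zero_or_pos k with h | h
  · subst h; simp [S_zero]
  · unfold S
    rw [Nat.digits_def' (by norm_num) (by omega), show 2 * k % 2 = 0 by omega,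
      show 2 * k / 2 = k by omega]
    change ((0 : ℕ) : ℤ[X]) + X * Nat.ofDigits X (Nat.digits 2 k) = _
    simp

lemma S_odd (k : ℕ) : S (2 * k + 1) = X * S k + 1 := by
  unfold S
  rw [Nat.digits_def' (by norm_num) (by omega), show (2 * k + 1) % 2 = 1 by omega,
    show (2 * k + 1) / 2 = k by omega]
  change ((1 : ℕ) : ℤ[X]) + X * Nat.ofDigits X (Nat.digits 2 k) = _
  push_cast
  ring

section Bound

variable {s : ℕ → ℂ} {t : ℂ} (h0 : ∀ k, s (2 * k) = t * s k) (h1 : ∀ k, s (2 * k + 1) = t * s k + 1)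

/-- The recursions in a form without division. -/
lemma q_eq (n : ℕ) : t * (QQ s t n).det =
    t ^ n * (t * (hr (dd s) n n).det - 2 * al (hr (dd s) n n)) := by
  rw [det_QQ, det_smul, Fintype.card_fin]
  have := al_smul (hr (dd s) n n) t
  rw [Fintype.card_fin] at this
  linear_combination (-2) * this

/-- The statement proved by induction for the first differences. -/
def GoodD (s : ℕ → ℂ) (n : ℕ) : Prop :=
  (hr (dd s) n n).det ≠ 0 ∧ (1 ≤ n → al (hr (dd s) n n) ≠ 0) ∧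
    ‖al (hr (dd s) n n)‖ ≤ ‖(hr (dd s) n n).det‖

lemma norm_w {n : ℕ} (h : GoodD s n) :
    (‖t‖ - 2) * ‖(hr (dd s) n n).det‖ ≤
      ‖t * (hr (dd s) n n).det - 2 * al (hr (dd s) n n)‖ := by
  have h3 := norm_sub_norm_le (t * (hr (dd s) n n).det) (2 * al (hr (dd s) n n))
  rw [norm_mul, norm_mul, Complex.norm_two] at h3
  nlinarith [h.2.2]

lemma w_ne (ht : 4 ≤ ‖t‖) {n : ℕ} (h : GoodD s n) :
    t * (hr (dd s) n n).det - 2 * al (hr (dd s) n n) ≠ 0 := by
  have h3 := norm_w (t := t) h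
  have h4 : 0 < ‖(hr (dd s) n n).det‖ := norm_pos_iff.2 h.1
  intro h5
  rw [h5, norm_zero] at h3
  nlinarith

lemma q_ne (ht : 4 ≤ ‖t‖) {n : ℕ} (h : GoodD s n) : (QQ s t n).det ≠ 0 := by
  intro h5
  have h6 := q_eq (s := s) (t := t) n
  rw [h5, mul_zero] at h6
  have ht0 : t ≠ 0 := by rintro rfl; rw [norm_zero] at ht; linarith
  exact mul_ne_zero (pow_ne_zero n ht0) (w_ne ht h) h6.symm

include h0 h1

lemma goodD_even (ht : 4 ≤ ‖t‖) {n : ℕ} (hn : 1 ≤ n) (h : GoodD s n) : GoodD s (n + n) := by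
  have ht0 : t ≠ 0 := by rintro rfl; rw [norm_zero] at ht; linarith
  obtain ⟨e1, e2⟩ := al_unique (hr (dd s) (n + n) (n + n)) (rec_dd_even h0 h1 n)
  have hq := q_ne ht h
  have h2 := al_smul (hr (dd s) n n) t
  rw [Fintype.card_fin] at h2
  have h3 : al (t • hr (dd s) n n) ≠ 0 := by
    intro h4
    rw [h4, mul_zero] at h2
    exact mul_ne_zero (pow_ne_zero n ht0) (h.2.1 hn) h2.symm
  have h5 : (-1 : ℂ) ^ n ≠ 0 := pow_ne_zero _ (by norm_num)
  rw [det_smul, Fintype.card_fin] at e1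
  refine ⟨?_, fun _ => ?_, ?_⟩
  · rw [e1]
    exact mul_ne_zero h5 (mul_ne_zero hq (mul_ne_zero (pow_ne_zero n ht0) h.1))
  · rw [e2]
    exact mul_ne_zero h5 (mul_ne_zero (mul_ne_zero two_ne_zero hq) h3)
  · rw [e1, e2, norm_mul, norm_mul, norm_mul, norm_mul, norm_mul, norm_mul, Complex.norm_two]
    have h6 := congrArg norm h2
    rw [norm_mul, norm_mul] at h6
    have h7 : 2 * ‖al (t • hr (dd s) n n)‖ ≤ ‖t ^ n‖ * ‖(hr (dd s) n n).det‖ := by
      have h8 : ‖t ^ n‖ * ‖al (hr (dd s) n n)‖ ≤ ‖t ^ n‖ * ‖(hr (dd s) n n).det‖ :=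
        mul_le_mul_of_nonneg_left h.2.2 (norm_nonneg _)
      nlinarith [norm_nonneg (al (t • hr (dd s) n n))]
    have h9 := mul_le_mul_of_nonneg_left h7
      (mul_nonneg (norm_nonneg ((-1 : ℂ) ^ n)) (norm_nonneg (QQ s t n).det))
    linarith

lemma goodD_odd (ht : 4 ≤ ‖t‖) {n : ℕ} (h : (hr (d2 s) n n).det ≠ 0) : GoodD s (n + 1 + n) := by
  have ht0 : t ≠ 0 := by rintro rfl; rw [norm_zero] at ht; linarith
  obtain ⟨e1, e2⟩ := al_unique (hr (dd s) (n + 1 + n) (n + 1 + n)) (rec_dd_odd h0 h1 n)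
  have h5 : (-1 : ℂ) ^ n ≠ 0 := pow_ne_zero _ (by norm_num)
  have h6 := mul_ne_zero h5 (pow_ne_zero 2 (mul_ne_zero (pow_ne_zero n ht0) h))
  exact ⟨by rw [e1]; exact h6, fun _ => by rw [e2]; exact h6, by rw [e1, e2]⟩

omit h0 h1 in
lemma goodD_zero : GoodD s 0 := by
  refine ⟨by simp, by omega, ?_⟩
  rw [al_eq]
  simp

lemma good_all (ht : 4 ≤ ‖t‖) (n : ℕ) : GoodD s n ∧ (hr (d2 s) n n).det ≠ 0 := by
  have ht0 : t ≠ 0 := by rintro rfl; rw [norm_zero] at ht; linarith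
  induction n using Nat.strong_induction_on with
  | _ N ih =>
    rcases Nat.even_or_odd' N with ⟨n, rfl | rfl⟩
    · rcases Nat.eq_zero_or_pos n with rfl | hn
      · exact ⟨goodD_zero, by simp⟩
      · obtain ⟨g1, g2⟩ := ih n (by omega)
        rw [two_mul]
        refine ⟨goodD_even h0 h1 ht hn g1, ?_⟩
        rw [rec_d2 h0 h1 le_rfl (Nat.le_succ n)]
        exact mul_ne_zero (q_ne ht g1) (mul_ne_zero (pow_ne_zero n ht0) g2)
    · obtain ⟨g1, g2⟩ := ih n (by omega)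
      rw [show 2 * n + 1 = n + 1 + n by ring]
      have g3 := goodD_odd h0 h1 ht g2
      refine ⟨g3, ?_⟩
      rw [rec_d2 h0 h1 (Nat.le_succ n) le_rfl]
      have g4 : GoodD s (n + 1) := by
        rcases Nat.eq_zero_or_pos n with rfl | hn
        · exact g3
        · exact (ih (n + 1) (by omega)).1
      exact mul_ne_zero (q_ne ht g4) (mul_ne_zero (pow_ne_zero n ht0) g2)

lemma step (ht : 4 ≤ ‖t‖) {m n : ℕ} (hm : n ≤ m) (hn : m ≤ n + 1)
    (ha : al (hr s m m) ≠ 0)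
    (hb : ‖al (hr s m m)‖ *
        ‖t * (hr (dd s) n n).det - 2 * al (hr (dd s) n n)‖ ≤
      (‖t‖ + 2) * ‖t * (hr s m m).det * (t * (hr (dd s) n n).det - 2 * al (hr (dd s) n n)) -
        al (hr s m m) * al (hr (dd s) n n)‖) :
    al (hr s (m + n) (m + n)) ≠ 0 ∧
      ‖al (hr s (m + n) (m + n))‖ ≤ (‖t‖ + 2) * ‖(hr s (m + n) (m + n)).det‖ := by
  have ht0 : t ≠ 0 := by rintro rfl; rw [norm_zero] at ht; linarith
  obtain ⟨e1, e2⟩ := al_unique (hr s (m + n) (m + n)) (rec_s h0 h1 hm hn)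
  have g := (good_all h0 h1 ht n).1
  have hw := w_ne ht g
  have hq := q_eq (s := s) (t := t) n
  have f1 := al_smul (hr s m m) t
  have f2 := al_smul (hr (dd s) n n) t
  rw [Fintype.card_fin] at f1 f2
  rw [det_smul, Fintype.card_fin] at e1
  set a := (hr s m m).det
  set α := al (hr s m m)
  set δ := (hr (dd s) n n).det
  set ε := al (hr (dd s) n n)
  set q := (QQ s t n).det
  set x := al (t • hr s m m)
  set y := al (t • hr (dd s) n n)
  have k1 : t * t * al (hr s (m + n) (m + n)) = t ^ (m + n) * (α * (t * δ - 2 * ε)) := by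
    rw [e2, pow_add]
    linear_combination t * q * f1 + t ^ m * α * hq
  have k2 : t * t * (hr s (m + n) (m + n)).det =
      t ^ (m + n) * (t * a * (t * δ - 2 * ε) - α * ε) := by
    rw [e1, pow_add]
    linear_combination t ^ m * a * t * hq - t * y * f1 - t ^ m * α * f2
  refine ⟨fun h => ?_, ?_⟩
  · rw [h, mul_zero] at k1
    exact mul_ne_zero (pow_ne_zero _ ht0) (mul_ne_zero ha hw) k1.symm
  · have n1 := congrArg norm k1
    have n2 := congrArg norm k2
    rw [norm_mul, norm_mul, norm_mul, norm_mul, ← norm_mul] at n1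
    rw [norm_mul, norm_mul (t ^ (m + n))] at n2
    have p1 : 0 < ‖t * t‖ := norm_pos_iff.2 (mul_ne_zero ht0 ht0)
    have p2 := mul_le_mul_of_nonneg_left hb (norm_nonneg (t ^ (m + n)))
    rw [← mul_le_mul_iff_right₀ p1]
    calc ‖t * t‖ * ‖al (hr s (m + n) (m + n))‖
        = ‖t ^ (m + n)‖ * (‖α‖ * ‖t * δ - 2 * ε‖) := by
          rw [← norm_mul, k1, norm_mul, norm_mul α]
      _ ≤ _ := p2
      _ = (‖t‖ + 2) * (‖t ^ (m + n)‖ * ‖t * a * (t * δ - 2 * ε) - α * ε‖) := by ring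
      _ = ‖t * t‖ * ((‖t‖ + 2) * ‖(hr s (m + n) (m + n)).det‖) := by
          rw [← n2]; ring

omit h0 h1 in
lemma s_one (hs : s 0 = 0) : (hr s 1 1).det = 0 ∧ al (hr s 1 1) = 1 := by
  constructor
  · simp [hs]
  · rw [al_eq]
    simp [hs]

lemma main_aux (hs : s 0 = 0) (ht : 4 ≤ ‖t‖) (N : ℕ) (hN : 2 ≤ N) :
    al (hr s N N) ≠ 0 ∧ ‖al (hr s N N)‖ ≤ (‖t‖ + 2) * ‖(hr s N N).det‖ := by
  induction N using Nat.strong_induction_on with
  | _ N ih =>
    -- the general step for `m ≥ 2`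
    have gen : ∀ m n : ℕ, 2 ≤ m → m < N → n ≤ m → m ≤ n + 1 →
        al (hr s (m + n) (m + n)) ≠ 0 ∧
          ‖al (hr s (m + n) (m + n))‖ ≤ (‖t‖ + 2) * ‖(hr s (m + n) (m + n)).det‖ := by
      intro m n h2 hmN h3 h4
      obtain ⟨i1, i2⟩ := ih m hmN h2
      refine step h0 h1 ht h3 h4 i1 ?_
      have g := (good_all h0 h1 ht n).1
      have g1 := norm_w (t := t) g
      have g2 := g.2.2
      set a := (hr s m m).det
      set α := al (hr s m m)
      set δ := (hr (dd s) n n).det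
      set ε := al (hr (dd s) n n)
      set w := t * δ - 2 * ε
      have l1 := norm_sub_norm_le (t * a * w) (α * ε)
      rw [norm_mul, norm_mul, norm_mul] at l1
      have l2 : (‖t‖ - 2) * ‖ε‖ ≤ ‖w‖ := by nlinarith
      have l3 : (‖t‖ + 2) * ‖ε‖ ≤ (‖t‖ - 1) * ‖w‖ := by
        have : (‖t‖ + 2) * ‖ε‖ ≤ (‖t‖ - 1) * ((‖t‖ - 2) * ‖ε‖) := by
          nlinarith [norm_nonneg ε, mul_nonneg (norm_nonneg ε) (mul_nonneg (norm_nonneg t)
            (by linarith : (0 : ℝ) ≤ ‖t‖ - 4))]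
        nlinarith
      have l4 : ‖α‖ * (‖t‖ * ‖w‖) ≤ (‖t‖ + 2) * ‖a‖ * (‖t‖ * ‖w‖) :=
        mul_le_mul_of_nonneg_right i2 (mul_nonneg (norm_nonneg _) (norm_nonneg _))
      have l5 : ‖α‖ * ((‖t‖ + 2) * ‖ε‖) ≤ ‖α‖ * ((‖t‖ - 1) * ‖w‖) :=
        mul_le_mul_of_nonneg_left l3 (norm_nonneg _)
      nlinarith [mul_le_mul_of_nonneg_left l1 (by linarith [norm_nonneg t] :
        (0 : ℝ) ≤ ‖t‖ + 2)]
    rcases Nat.even_or_odd' N with ⟨n, rfl | rfl⟩
    · rcases (show n = 1 ∨ 2 ≤ n by omega) with rfl | hn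
      · -- `N = 2`
        obtain ⟨c1, c2⟩ := s_one (s := s) hs
        have e := al_unique (hr (dd s) (0 + 1 + 0) (0 + 1 + 0)) (rec_dd_odd h0 h1 0)
        have d1 : (hr (dd s) 1 1).det = 1 := by simpa using e.1
        have d2 : al (hr (dd s) 1 1) = 1 := by simpa using e.2
        refine step h0 h1 ht (m := 1) (n := 1) le_rfl (by norm_num) ?_ ?_
        · rw [c2]; exact one_ne_zero
        · rw [c1, c2, d1, d2]
          have := norm_sub_le t 2
          rw [Complex.norm_two] at this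
          simpa using this
      · rw [two_mul]
        exact gen n n hn (by omega) le_rfl (Nat.le_succ n)
    · rw [show 2 * n + 1 = n + 1 + n by ring]
      exact gen (n + 1) n (by omega) (by omega) (Nat.le_succ n) le_rfl

lemma det_ne (hs : s 0 = 0) (ht : 4 ≤ ‖t‖) (N : ℕ) (hN : 2 ≤ N) : (hr s N N).det ≠ 0 := by
  intro h
  obtain ⟨i1, i2⟩ := main_aux h0 h1 hs ht N hN
  rw [h, norm_zero, mul_zero] at i2
  exact i1 (norm_le_zero_iff.1 i2)

end Bound

/-- **Theorem.** For every `n ≥ 2`, every complex root `t₀` of `H(n, t)` satisfies `|t₀| < 4`. -/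
theorem result (n : ℕ) (hn : 2 ≤ n) (t₀ : ℂ) (h : aeval t₀ (H n) = 0) : ‖t₀‖ < 4 := by
  by_contra ht
  rw [not_lt] at ht
  have e : aeval t₀ (H n) = (hr (fun m => aeval t₀ (S m)) n n).det := by
    rw [H, AlgHom.map_det]
    rfl
  rw [e] at h
  refine det_ne (s := fun m => aeval t₀ (S m)) (t := t₀) (fun k => ?_) (fun k => ?_) ?_ ht n hn h
  · simp [S_even]
  · simp [S_odd]
  · simp [S_zero]

end Pool.Agent.Results.MP_9fc12a_nt.RootsBelowFour
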